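import Pool.Agent.Helper17.SL.GoalsB

/-! # Packet LB of project SL (MP_fc6b1e_nt) -/

set_option autoImplicit false

namespace Pool.Agent.Helper17.SL.PkLB

open Module

universe u v

/-- the left annihilator -/
def ann {V W k : Type*} [AddCommGroup V] [Module ℚ V] [AddCommGroup W] [Module ℚ W]
    [AddCommGroup k] [Module ℚ k] (B : V →ₗ[ℚ] W →ₗ[ℚ] k) (W' : Submodule ℚ W) :
    Submodule ℚ V where
  carrier := {a | ∀ c ∈ W', B a c = 0}
  add_mem' := fun {a b} ha hb c hc ↦ by
    rw [map_add, LinearMap.add_apply, ha c hc, hb c hc, add_zero]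
  zero_mem' := fun c _ ↦ by rw [map_zero, LinearMap.zero_apply]
  smul_mem' := fun q a ha c hc ↦ by rw [map_smul, LinearMap.smul_apply, ha c hc, smul_zero]

theorem mem_ann {V W k : Type*} [AddCommGroup V] [Module ℚ V] [AddCommGroup W] [Module ℚ W]
    [AddCommGroup k] [Module ℚ k] {B : V →ₗ[ℚ] W →ₗ[ℚ] k} {W' : Submodule ℚ W} {a : V} :
    a ∈ ann B W' ↔ ∀ c ∈ W', B a c = 0 := Iff.rfl

theorem ann_sup {V W k : Type*} [AddCommGroup V] [Module ℚ V] [AddCommGroup W] [Module ℚ W]
    [AddCommGroup k] [Module ℚ k] (B : V →ₗ[ℚ] W →ₗ[ℚ] k) (P Q : Submodule ℚ W) :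
    ann B (P ⊔ Q) = ann B P ⊓ ann B Q := by
  ext a
  rw [Submodule.mem_inf, mem_ann, mem_ann, mem_ann]
  constructor
  · intro h
    exact ⟨fun c hc ↦ h c (Submodule.mem_sup_left hc), fun c hc ↦ h c (Submodule.mem_sup_right hc)⟩
  · rintro ⟨h1, h2⟩ c hc
    obtain ⟨x, hx, y, hy, rfl⟩ := Submodule.mem_sup.1 hc
    rw [map_add, h1 x hx, h2 y hy, add_zero]

theorem ann_anti {V W k : Type*} [AddCommGroup V] [Module ℚ V] [AddCommGroup W] [Module ℚ W]
    [AddCommGroup k] [Module ℚ k] (B : V →ₗ[ℚ] W →ₗ[ℚ] k) {P Q : Submodule ℚ W} (h : P ≤ Q) :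
    ann B Q ≤ ann B P := fun _ ha c hc ↦ ha c (h hc)

theorem thm (hSUB : S_SUB.{u, u}) : S_LB.{u, v} := by
  intro E _ _ k _ _ d l B hB hnd A A' hAA'
  have hD : finrank ℚ (Fin d → E) = d * finrank ℚ E := by
    rw [Module.finrank_pi_fintype, Finset.sum_const, Finset.card_univ, Fintype.card_fin,
      smul_eq_mul]
  have hL : finrank ℚ (Fin l → E) = l * finrank ℚ E := by
    rw [Module.finrank_pi_fintype, Finset.sum_const, Finset.card_univ, Fintype.card_fin,
      smul_eq_mul]
  have hle : ∀ W' : Submodule ℚ (Fin l → E), finrank ℚ (ann B W') ≤ d * finrank ℚ E :=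
    fun W' ↦ hD ▸ Submodule.finrank_le _
  have key := hSUB E (Fin l → E) (fun W' ↦ d * finrank ℚ E - finrank ℚ (ann B W')) d l ?_ ?_ ?_ A'
  · have h1 : A ≤ ann B A' := fun a ha c hc ↦ hAA' c hc a ha
    have h2 : finrank ℚ A ≤ finrank ℚ (ann B A') := Submodule.finrank_mono h1
    have h3 := hle A'
    have h4 : l * finrank ℚ A ≤ l * finrank ℚ (ann B A') := Nat.mul_le_mul_left _ h2
    have h5 : l * (d * finrank ℚ E - finrank ℚ (ann B A')) + l * finrank ℚ (ann B A') =
        l * (d * finrank ℚ E) := by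
      rw [← mul_add, Nat.sub_add_cancel h3]
    omega
  · intro P Q
    have h1 := Submodule.finrank_sup_add_finrank_inf_eq (ann B P) (ann B Q)
    have h2 : finrank ℚ ↥(ann B P ⊔ ann B Q) ≤ finrank ℚ (ann B (P ⊓ Q)) :=
      Submodule.finrank_mono (sup_le (ann_anti B inf_le_left) (ann_anti B inf_le_right))
    have h3 := hle P
    have h4 := hle Q
    have h5 := hle (P ⊓ Q)
    have h6 := hle (P ⊔ Q)
    rw [ann_sup] at h6 ⊢
    omega
  · intro c P hc
    have h1 : ann B (P.map ((LinearMap.lsmul E (Fin l → E) c).restrictScalars ℚ)) =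
        (ann B P).map (((LinearEquiv.smulOfNeZero E (Fin d → E) c hc).restrictScalars ℚ).symm :
          (Fin d → E) →ₗ[ℚ] (Fin d → E)) := by
      ext a
      rw [mem_ann]
      constructor
      · intro h
        refine ⟨c • a, ?_, ?_⟩
        · rw [SetLike.mem_coe, mem_ann]
          intro x hx
          rw [hB]
          exact h _ ⟨x, hx, rfl⟩
        · exact ((LinearEquiv.smulOfNeZero E (Fin d → E) c hc).restrictScalars ℚ).symm_apply_apply a
      · rintro ⟨x, hx, rfl⟩ y ⟨z, hz, rfl⟩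
        have h2 : c • ((((LinearEquiv.smulOfNeZero E (Fin d → E) c hc).restrictScalars ℚ).symm :
          (Fin d → E) →ₗ[ℚ] (Fin d → E)) x) = x :=
          ((LinearEquiv.smulOfNeZero E (Fin d → E) c hc).restrictScalars ℚ).apply_symm_apply x
        change B _ (c • z) = 0
        rw [← hB, h2]
        exact hx z hz
    rw [h1, LinearEquiv.finrank_map_eq]
  · intro W'
    rcases eq_or_ne W' ⊥ with h | h
    · subst h
      have : finrank ℚ ((⊥ : Submodule E (Fin l → E)).restrictScalars ℚ) = 0 := by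
        rw [Submodule.restrictScalars_bot, finrank_bot]
      rw [this]
      simp
    · obtain ⟨c, hc, hc0⟩ := Submodule.exists_mem_ne_zero_of_ne_bot h
      have h1 : ann B (W'.restrictScalars ℚ) = ⊥ := by
        rw [eq_bot_iff]
        intro a ha
        rw [Submodule.mem_bot]
        refine (hnd a c fun e ↦ ?_).resolve_right hc0
        rw [hB]
        exact ha _ (W'.smul_mem e hc)
      have h2 : finrank ℚ (W'.restrictScalars ℚ) ≤ l * finrank ℚ E :=
        hL ▸ Submodule.finrank_le _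
      rw [h1, finrank_bot, Nat.sub_zero]
      calc d * finrank ℚ (W'.restrictScalars ℚ) ≤ d * (l * finrank ℚ E) :=
            Nat.mul_le_mul_left _ h2
        _ = l * (d * finrank ℚ E) := by ring

end Pool.Agent.Helper17.SL.PkLB
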