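import Pool.Agent.Helper17.SL.GoalsZE

/-! # Packet ZD of project SL (MP_fc6b1e_nt) -/

set_option autoImplicit false

namespace Pool.Agent.Helper17.SL.PkZD

open MvPolynomial Module

universe u x y

theorem finite_wt (I : Type x) (J : Type y) [Fintype I] [Fintype J] (T S N : ℕ) (hT : 1 ≤ T)
    (hS : 1 ≤ S) : {d : I ⊕ J →₀ ℕ | wt T S d ≤ N}.Finite := by
  classical
  have h : {d : I ⊕ J →₀ ℕ | wt T S d ≤ N} ⊆
      ((Finset.Iic (Finsupp.equivFunOnFinite.symm (fun _ : I ⊕ J ↦ N)) :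
        Finset (I ⊕ J →₀ ℕ)) : Set (I ⊕ J →₀ ℕ)) := by
    intro d hd
    change wt T S d ≤ N at hd
    simp only [wt] at hd
    rw [Finset.coe_Iic, Set.mem_Iic]
    intro i
    simp only [Finsupp.equivFunOnFinite_symm_apply_apply]
    rcases i with i | j
    · have h1 : d (Sum.inl i) ≤ ∑ i, d (Sum.inl i) :=
        Finset.single_le_sum (f := fun i ↦ d (Sum.inl i)) (fun _ _ ↦ Nat.zero_le _)
          (Finset.mem_univ i)
      have h2 : ∑ i, d (Sum.inl i) ≤ S * ∑ i, d (Sum.inl i) := Nat.le_mul_of_pos_left _ hS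
      omega
    · have h1 : d (Sum.inr j) ≤ ∑ j, d (Sum.inr j) :=
        Finset.single_le_sum (f := fun j ↦ d (Sum.inr j)) (fun _ _ ↦ Nat.zero_le _)
          (Finset.mem_univ j)
      have h2 : ∑ j, d (Sum.inr j) ≤ T * ∑ j, d (Sum.inr j) := Nat.le_mul_of_pos_left _ hT
      omega
  exact (Finset.finite_toSet _).subset h

theorem fd_Fil (K : Type u) [Field K] (I : Type x) (J : Type y) [Fintype I] [Fintype J]
    (T S z : ℕ) (hT : 1 ≤ T) (hS : 1 ≤ S) : FiniteDimensional K (Fil K I J T S z) := by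
  have := (finite_wt I J T S (z * (S * T)) hT hS).to_subtype
  exact Module.Finite.of_basis (basisRestrictSupport K
    {d : I ⊕ J →₀ ℕ | wt T S d ≤ z * (S * T)})

theorem mem_Fil {K : Type u} [Field K] {I : Type x} {J : Type y} [Fintype I] [Fintype J]
    {T S z : ℕ} {f : MvPolynomial (I ⊕ J) K} :
    f ∈ Fil K I J T S z ↔ ∀ d ∈ f.support, wt T S d ≤ z * (S * T) := by
  unfold Fil
  rw [mem_restrictSupport_iff]
  constructor
  · intro h d hd
    exact h (Finset.mem_coe.2 hd)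
  · intro h d hd
    exact h d (Finset.mem_coe.1 hd)

theorem wt_add {I : Type x} {J : Type y} [Fintype I] [Fintype J] (T S : ℕ)
    (d e : I ⊕ J →₀ ℕ) : wt T S (d + e) = wt T S d + wt T S e := by
  simp only [wt, Finsupp.add_apply, Finset.sum_add_distrib]
  ring

theorem mul_mem_Fil {K : Type u} [Field K] {I : Type x} {J : Type y} [Fintype I] [Fintype J]
    {T S a b : ℕ} {f g : MvPolynomial (I ⊕ J) K} (hf : f ∈ Fil K I J T S a)
    (hg : g ∈ Fil K I J T S b) : f * g ∈ Fil K I J T S (a + b) := by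
  classical
  rw [mem_Fil] at hf hg ⊢
  intro d hd
  obtain ⟨d1, h1, d2, h2, rfl⟩ := Finset.mem_add.1 (support_mul f g hd)
  rw [wt_add, add_mul]
  exact add_le_add (hf d1 h1) (hg d2 h2)

theorem exists_w {K : Type u} [Field K] {I : Type x} {J : Type y} [Fintype I] [Fintype J]
    {T S : ℕ} (hT : 1 ≤ T) (hS : 1 ≤ S) (f : MvPolynomial (I ⊕ J) K) :
    ∃ w : ℕ, ∀ w', w ≤ w' → f ∈ Fil K I J T S w' := by
  refine ⟨∑ d ∈ f.support, wt T S d, fun w' hw ↦ ?_⟩
  rw [mem_Fil]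
  intro d hd
  have h1 : wt T S d ≤ ∑ d ∈ f.support, wt T S d :=
    Finset.single_le_sum (f := fun d ↦ wt T S d) (fun _ _ ↦ Nat.zero_le _) hd
  have h2 : w' ≤ w' * (S * T) := Nat.le_mul_of_pos_right _ (Nat.mul_pos hS hT)
  omega

theorem gen {K ι F W : Type*} [Field K] [Fintype ι] [DecidableEq ι] (Wi : ι → Type*)
    [∀ i, AddCommGroup (Wi i)] [∀ i, Module K (Wi i)] [AddCommGroup F] [Module K F]
    [FiniteDimensional K F] [AddCommGroup W] [Module K W] (m : ∀ i, F →ₗ[K] Wi i)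
    (Phi : (ι → F) →ₗ[K] W) (h : ∀ v, Phi v = 0 → ∀ i, m i (v i) = 0) :
    ∑ i, finrank K (LinearMap.range (m i)) ≤ finrank K (LinearMap.range Phi) := by
  let Psi : (ι → F) →ₗ[K] (i : ι) → ↥(LinearMap.range (m i)) :=
    LinearMap.pi fun i ↦ (m i).rangeRestrict ∘ₗ LinearMap.proj i
  have hker : LinearMap.ker Phi ≤ LinearMap.ker Psi := by
    intro v hv
    rw [LinearMap.mem_ker] at hv ⊢
    funext i
    apply Subtype.ext
    exact h v hv i
  have hsurj : Function.Surjective Psi := by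
    intro f
    have : ∀ i : ι, ∃ a : F, m i a = f i := fun i ↦ (f i).2
    choose a ha using this
    exact ⟨a, funext fun i ↦ Subtype.ext (ha i)⟩
  have e1 : finrank K (LinearMap.range Psi) = ∑ i, finrank K (LinearMap.range (m i)) := by
    rw [LinearMap.range_eq_top.2 hsurj, finrank_top, Module.finrank_pi_fintype]
  have e3 := LinearMap.finrank_range_add_finrank_ker Phi
  have e4 := LinearMap.finrank_range_add_finrank_ker Psi
  have e5 := Submodule.finrank_mono hker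
  omega

theorem thm : S_ZD.{u, x, y} := by
  classical
  intro K _ I J _ _ T S hT hS A PP hprime hA hinc
  -- the elements `g P`
  have hg : ∀ P ∈ PP, ∃ g : MvPolynomial (I ⊕ J) K, g ∉ P ∧ ∀ Q ∈ PP, Q ≠ P → g ∈ Q := by
    intro P hP
    have h1 : ∀ Q ∈ PP.erase P, ∃ a : MvPolynomial (I ⊕ J) K, a ∈ Q ∧ a ∉ P := by
      intro Q hQ
      rw [Finset.mem_erase] at hQ
      by_contra hcon
      push Not at hcon
      exact hQ.1 (hinc Q hQ.2 P hP (fun a ha ↦ hcon a ha))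
    choose! a ha using h1
    refine ⟨∏ Q ∈ PP.erase P, a Q, ?_, ?_⟩
    · intro hmem
      have := hprime P hP
      obtain ⟨Q, hQ, hQ'⟩ := (Ideal.IsPrime.prod_mem_iff).1 hmem
      exact (ha Q hQ).2 hQ'
    · intro Q hQ hne
      have hQ' : Q ∈ PP.erase P := Finset.mem_erase.2 ⟨hne, hQ⟩
      exact Ideal.mem_of_dvd Q (Finset.dvd_prod_of_mem a hQ') (ha Q hQ').1
  choose! g hg using hg
  choose w hw using fun P : Ideal (MvPolynomial (I ⊕ J) K) ↦ exists_w (I := I) (J := J) hT hS (g P)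
  refine ⟨∑ P ∈ PP, w P, fun z ↦ ?_⟩
  have hgF : ∀ P ∈ PP, g P ∈ Fil K I J T S (∑ P ∈ PP, w P) := fun P hP ↦
    hw P _ (Finset.single_le_sum (f := w) (fun _ _ ↦ Nat.zero_le _) hP)
  have fd1 := fd_Fil K I J T S z hT hS
  have fd2 := fd_Fil K I J T S (z + ∑ P ∈ PP, w P) hT hS
  let Phi : (PP → Fil K I J T S z) →ₗ[K] MvPolynomial (I ⊕ J) K ⧸ A :=
    ∑ P : PP, (Ideal.Quotient.mkₐ K A).toLinearMap ∘ₗ (LinearMap.mulRight K (g P)) ∘ₗ
      (Fil K I J T S z).subtype ∘ₗ LinearMap.proj P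
  have hPhi : ∀ v, Phi v =
      Ideal.Quotient.mk A (∑ P : PP, (v P : MvPolynomial (I ⊕ J) K) * g P) := by
    intro v
    simp only [Phi, LinearMap.sum_apply, LinearMap.comp_apply,
      Submodule.subtype_apply, LinearMap.mulRight_apply, AlgHom.toLinearMap_apply,
      Ideal.Quotient.mkₐ_eq_mk, map_sum]
    rfl
  have key := gen (fun P : PP ↦ MvPolynomial (I ⊕ J) K ⧸ (P : Ideal (MvPolynomial (I ⊕ J) K)))
    (fun P : PP ↦ (Ideal.Quotient.mkₐ K (P : Ideal (MvPolynomial (I ⊕ J) K))).toLinearMap ∘ₗ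
      (Fil K I J T S z).subtype) Phi ?_
  · have e1 : ∑ P ∈ PP, hil P T S z = ∑ P : PP, finrank K (LinearMap.range
        ((Ideal.Quotient.mkₐ K (P : Ideal (MvPolynomial (I ⊕ J) K))).toLinearMap ∘ₗ
          (Fil K I J T S z).subtype)) := by
      rw [← Finset.sum_coe_sort PP (fun P ↦ hil P T S z)]
      refine Finset.sum_congr rfl fun P _ ↦ ?_
      rw [LinearMap.range_comp, Submodule.range_subtype]
      rfl
    have e2 : finrank K (LinearMap.range Phi) ≤ hil A T S (z + ∑ P ∈ PP, w P) := by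
      unfold hil
      apply Submodule.finrank_mono
      rintro _ ⟨v, rfl⟩
      rw [hPhi]
      refine ⟨_, ?_, rfl⟩
      exact Submodule.sum_mem _ fun P _ ↦ mul_mem_Fil (v P).2 (hgF P P.2)
    rw [e1]
    exact key.trans e2
  · intro v hv P
    rw [hPhi, Ideal.Quotient.eq_zero_iff_mem] at hv
    change Ideal.Quotient.mk (P : Ideal (MvPolynomial (I ⊕ J) K)) (v P : MvPolynomial (I ⊕ J) K) = 0
    rw [Ideal.Quotient.eq_zero_iff_mem]
    have hpr := hprime P P.2
    have h1 := hA P P.2 hv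
    rw [← Finset.add_sum_erase _ _ (Finset.mem_univ P)] at h1
    have h2 : ∑ Q ∈ Finset.univ.erase P, (v Q : MvPolynomial (I ⊕ J) K) * g Q ∈
        (P : Ideal (MvPolynomial (I ⊕ J) K)) := by
      refine Ideal.sum_mem _ fun Q hQ ↦ ?_
      refine Ideal.mul_mem_left _ _ ((hg Q Q.2).2 P P.2 fun h ↦ ?_)
      exact (Finset.mem_erase.1 hQ).1 (Subtype.ext h.symm)
    have h3 := (Ideal.add_mem_iff_left _ h2).1 h1
    exact (hpr.mem_or_mem h3).resolve_right (hg P P.2).1

end Pool.Agent.Helper17.SL.PkZD
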